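import Mathlib
import Pool.Agent.H373R2.T7.Sys4
import Pool.Agent.H373R2.T7.Cnt

/-!
Orthogonality of sequences that are small in residue classes to prime values (helper890), part 1: pairs
of rough numbers and the expansion of the pair density.
-/

set_option autoImplicit false

namespace Pool.Agent.TH890.OA

open Finset Pool.Agent.H373R2.T7

/-- the pair condition -/
def Q2 (m m' : ℕ) (p v : ℕ) : Prop := p ∣ v + m ∨ p ∣ v + m'

/-- the residue of `-m` -/
def r0 (p m : ℕ) : ℕ := if m % p = 0 then 0 else p - m % p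

lemma r0_lt {p : ℕ} (hp : 0 < p) (m : ℕ) : r0 p m < p := by
  unfold r0
  split_ifs <;> omega

lemma dvd_add_iff_r0 {p : ℕ} (hp : 0 < p) {m r : ℕ} (hr : r < p) : p ∣ r + m ↔ r = r0 p m := by
  have hm : m % p < p := Nat.mod_lt _ hp
  have e : r + m = (r + m % p) + p * (m / p) := by
    have := Nat.mod_add_div m p
    omega
  have h1 : p ∣ r + m ↔ p ∣ r + m % p := by
    rw [e]
    exact (Nat.dvd_add_iff_left (dvd_mul_right _ _)).symm
  rw [h1]
  unfold r0
  constructor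
  · rintro ⟨c, hc⟩
    have hc2 : c = 0 ∨ c = 1 := by
      have : p * c < p * 2 := by omega
      have := lt_of_mul_lt_mul_left this (Nat.zero_le p)
      omega
    rcases hc2 with rfl | rfl
    · rw [mul_zero] at hc
      have : m % p = 0 := by omega
      rw [if_pos this]; omega
    · rw [mul_one] at hc
      have : m % p ≠ 0 := by omega
      rw [if_neg this]; omega
  · intro h
    split_ifs at h with h2
    · rw [h, h2]; exact dvd_zero _
    · exact ⟨1, by omega⟩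

lemma r0_eq_iff {p : ℕ} (hp : 0 < p) (m m' : ℕ) : r0 p m = r0 p m' ↔ m ≡ m' [MOD p] := by
  have h1 : m % p < p := Nat.mod_lt _ hp
  have h2 : m' % p < p := Nat.mod_lt _ hp
  unfold r0 Nat.ModEq
  split_ifs <;> omega

lemma nu_Q2 {p : ℕ} (hp : p.Prime) (m m' : ℕ) :
    nuB (Q2 m m') p = if m ≡ m' [MOD p] then 1 else 2 := by
  classical
  have h1 : (range p).filter (fun r => Q2 m m' p r) = {r0 p m, r0 p m'} := by
    ext r
    rw [mem_filter, mem_range, mem_insert, mem_singleton]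
    unfold Q2
    constructor
    · rintro ⟨h1, h2⟩
      rwa [dvd_add_iff_r0 hp.pos h1, dvd_add_iff_r0 hp.pos h1] at h2
    · intro h
      have h1 : r < p := by
        rcases h with h | h <;> rw [h] <;> exact r0_lt hp.pos _
      refine ⟨h1, ?_⟩
      rwa [dvd_add_iff_r0 hp.pos h1, dvd_add_iff_r0 hp.pos h1]
  unfold nuB
  have h2 : ((range p).filter (fun r => Q2 m m' p r)).card = if m ≡ m' [MOD p] then 1 else 2 := by
    rw [h1]
    split_ifs with h3
    · rw [(r0_eq_iff hp.pos m m').2 h3]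
      simp
    · rw [card_pair (fun h => h3 ((r0_eq_iff hp.pos m m').1 h))]
  rw [← h2]

lemma per_Q2 (m m' : ℕ) : PerB (Q2 m m') 2 := by
  refine ⟨fun p n => ?_, fun p hp => ?_⟩
  · have h : ∀ m, p ∣ n + m ↔ p ∣ n % p + m := by
      intro m
      have e : n + m = (n % p + m) + p * (n / p) := by
        have := Nat.mod_add_div n p
        omega
      rw [e]
      exact (Nat.dvd_add_iff_left (dvd_mul_right _ _)).symm
    unfold Q2
    rw [h m, h m']
  · rw [nu_Q2 hp]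
    split_ifs <;> norm_num

/-- local factors -/
noncomputable def gA (p : ℕ) : ℝ := (1 - 1 / (p : ℝ))⁻¹

/-- local factors -/
noncomputable def gB (p : ℕ) : ℝ := (1 - 2 / (p : ℝ)) / (1 - 1 / (p : ℝ)) ^ 2

/-- the pair density -/
noncomputable def fz (z m m' : ℕ) : ℝ := ∏ p ∈ pz z, if m ≡ m' [MOD p] then gA p else gB p

lemma half_le {p : ℕ} (hp : p.Prime) : (1 : ℝ) / 2 ≤ 1 - 1 / (p : ℝ) ∧ 1 - 1 / (p : ℝ) ≤ 1 := by
  have h2 : (2 : ℝ) ≤ p := by exact_mod_cast hp.two_le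
  have h3 : (1 : ℝ) / p ≤ 1 / 2 := one_div_le_one_div_of_le (by norm_num) h2
  have h4 : (0 : ℝ) ≤ 1 / p := by positivity
  constructor <;> linarith

lemma fz_eq (z m m' : ℕ) : fz z m m' = (Vz z)⁻¹ ^ 2 * ∏ p ∈ pz z, (1 - (nuB (Q2 m m') p : ℝ) / p) := by
  unfold fz Vz
  rw [← prod_inv_distrib, ← prod_pow, ← prod_mul_distrib]
  refine prod_congr rfl fun p hp => ?_
  have hpp := (mem_pz.1 hp).2
  obtain ⟨h1, -⟩ := half_le hpp
  have h0 : (1 - 1 / (p : ℝ)) ≠ 0 := by linarith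
  rw [nu_Q2 hpp]
  split_ifs
  · unfold gA
    push_cast
    field_simp
  · unfold gB
    push_cast
    field_simp

lemma gA_bd {p : ℕ} (hp : p.Prime) : 1 ≤ gA p ∧ gA p ≤ 2 := by
  obtain ⟨h1, h2⟩ := half_le hp
  unfold gA
  constructor
  · exact (one_le_inv₀ (by linarith)).2 h2
  · rw [inv_le_comm₀ (by linarith) (by norm_num)]
    linarith

lemma gB_bd {p : ℕ} (hp : p.Prime) : 0 ≤ gB p ∧ gB p ≤ 1 := by
  obtain ⟨h1, h2⟩ := half_le hp
  have h0 : 0 < (1 - 1 / (p : ℝ)) ^ 2 := by positivity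
  have h3 : (2 : ℝ) / p = 2 * (1 / p) := by ring
  unfold gB
  rw [h3]
  constructor
  · apply div_nonneg _ h0.le
    linarith
  · rw [div_le_one h0]
    nlinarith [sq_nonneg (1 / (p : ℝ))]

lemma gAB {p : ℕ} (hp : p.Prime) : gB p ≤ gA p ∧ gA p - gB p ≤ 4 / p := by
  refine ⟨(gB_bd hp).2.trans (gA_bd hp).1, ?_⟩
  obtain ⟨h1, h2⟩ := half_le hp
  have hp0 : (0 : ℝ) < p := by exact_mod_cast hp.pos
  have h0 : (0 : ℝ) < 1 - 1 / (p : ℝ) := by linarith
  have e : gA p - gB p = 1 / p / (1 - 1 / (p : ℝ)) ^ 2 := by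
    unfold gA gB
    field_simp
    ring
  rw [e, div_le_div_iff₀ (by positivity) hp0]
  have h3 : (1 : ℝ) / 4 ≤ (1 - 1 / (p : ℝ)) ^ 2 := by nlinarith
  have h4 : 1 / (p : ℝ) * p = 1 := by field_simp
  rw [h4]
  linarith

/-- powers of the local factors -/
lemma pow_diff {p : ℕ} (hp : p.Prime) (k : ℕ) :
    0 ≤ gA p ^ k - gB p ^ k ∧ gA p ^ k - gB p ^ k ≤ (k * 2 ^ (k + 1) : ℕ) / p := by
  obtain ⟨a1, a2⟩ := gA_bd hp
  obtain ⟨b1, b2⟩ := gB_bd hp
  obtain ⟨c1, c2⟩ := gAB hp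
  have hp0 : (0 : ℝ) < p := by exact_mod_cast hp.pos
  induction k with
  | zero => simp
  | succ k ih =>
    obtain ⟨i1, i2⟩ := ih
    have e : gA p ^ (k + 1) - gB p ^ (k + 1) = gA p * (gA p ^ k - gB p ^ k) + gB p ^ k * (gA p - gB p) := by
      ring
    have hb0 : 0 ≤ gB p ^ k := by positivity
    have hb1 : gB p ^ k ≤ 2 ^ k := (pow_le_one₀ b1 b2).trans (one_le_pow₀ (by norm_num))
    rw [e]
    constructor
    · have := mul_nonneg (by linarith : 0 ≤ gA p) i1
      have := mul_nonneg hb0 (by linarith : 0 ≤ gA p - gB p)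
      linarith
    · have h1 : gA p * (gA p ^ k - gB p ^ k) ≤ 2 * ((k * 2 ^ (k + 1) : ℕ) / p) :=
        mul_le_mul a2 i2 i1 (by norm_num)
      have h2 : gB p ^ k * (gA p - gB p) ≤ 2 ^ k * (4 / p) :=
        mul_le_mul hb1 c2 (by linarith) (by positivity)
      refine (add_le_add h1 h2).trans (le_of_eq ?_)
      push_cast
      field_simp
      ring

/-- the expansion of the pair density -/
lemma fz_pow (z m m' k : ℕ) : fz z m m' ^ k = ∑ T ∈ (pz z).powerset,
    (∏ p ∈ T, (gA p ^ k - gB p ^ k)) * (∏ p ∈ pz z \ T, gB p ^ k) *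
      (if ∀ p ∈ T, m ≡ m' [MOD p] then 1 else 0) := by
  unfold fz
  rw [← prod_pow]
  have h1 : ∏ p ∈ pz z, (if m ≡ m' [MOD p] then gA p else gB p) ^ k =
      ∏ p ∈ pz z, ((gA p ^ k - gB p ^ k) * (if m ≡ m' [MOD p] then 1 else 0) + gB p ^ k) := by
    refine prod_congr rfl fun p _ => ?_
    split_ifs <;> ring
  rw [h1, prod_add]
  refine sum_congr rfl fun T _ => ?_
  rw [prod_mul_distrib]
  have h2 : ∏ p ∈ T, (if m ≡ m' [MOD p] then (1 : ℝ) else 0) = if ∀ p ∈ T, m ≡ m' [MOD p] then 1 else 0 := by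
    split_ifs with h
    · exact prod_eq_one fun p hp => if_pos (h p hp)
    · push Not at h
      obtain ⟨p, hp, hpm⟩ := h
      exact prod_eq_zero hp (if_neg hpm)
  rw [h2]
  ring

end Pool.Agent.TH890.OA
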