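import Pool.Agent.TH890.OA.A1

/-!
Orthogonality of sequences that are small in residue classes to prime values (helper890), part 2: the sum
over pairs.
-/

set_option autoImplicit false

namespace Pool.Agent.TH890.OA

open Finset Pool.Agent.H373R2.T7

/-- periodic sequences with few solutions of congruences -/
structure Adm (F : ℕ → ℕ) (c : ℕ) : Prop where
  one : 1 ≤ c
  per : ∀ p n : ℕ, F (n % p) ≡ F n [MOD p]
  few : ∀ p : ℕ, p.Prime → ∀ m : ℕ, ((range p).filter (fun r => F r ≡ m [MOD p])).card ≤ c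

lemma Adm.congr {F : ℕ → ℕ} {c : ℕ} (h : Adm F c) {p m n : ℕ} (hmn : m ≡ n [MOD p]) :
    F m ≡ F n [MOD p] := by
  have h1 := h.per p m
  have h2 := h.per p n
  have h3 : m % p = n % p := hmn
  rw [h3] at h1
  exact h1.symm.trans h2

/-- the correlation along a set of primes -/
noncomputable def ET (F : ℕ → ℕ) (G : ℕ → ℝ) (x : ℕ) (T : Finset ℕ) : ℝ :=
  ∑ n ∈ Icc 1 x, ∑ n' ∈ Icc 1 x, G n * G n' * (if ∀ p ∈ T, F n ≡ F n' [MOD p] then 1 else 0)

/-- small moduli -/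
lemma ET_small {F : ℕ → ℕ} {c : ℕ} (hF : Adm F c) {G : ℕ → ℝ} {x : ℕ} {T : Finset ℕ}
    (hT : ∀ p ∈ T, p.Prime) {M : ℝ} (hM : 0 ≤ M)
    (hG : ∀ r : ℕ, |∑ n ∈ (Icc 1 x).filter (fun n => n ≡ r [MOD ∏ p ∈ T, p]), G n| ≤ M) :
    |ET F G x T| ≤ ((∏ p ∈ T, p : ℕ) : ℝ) ^ 2 * M ^ 2 := by
  classical
  obtain ⟨q, hq⟩ : ∃ q, q = ∏ p ∈ T, p := ⟨_, rfl⟩
  have hq0 : 0 < q := by rw [hq]; exact prod_pos fun p hp => (hT p hp).pos
  rw [← hq] at hG ⊢
  obtain ⟨S, hS⟩ : ∃ S : ℕ → ℝ, S = fun r => ∑ n ∈ (Icc 1 x).filter (fun n => n ≡ r [MOD q]), G n := ⟨_, rfl⟩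
  have hfib : ∀ f : ℕ → ℝ, ∑ n ∈ Icc 1 x, f n = ∑ r ∈ range q, ∑ n ∈ (Icc 1 x).filter (fun n => n ≡ r [MOD q]), f n := by
    intro f
    rw [← sum_fiberwise_of_maps_to (s := Icc 1 x) (t := range q) (g := fun n => n % q)
      (fun n _ => mem_range.2 (Nat.mod_lt _ hq0))]
    refine sum_congr rfl fun r hr => ?_
    refine sum_congr ?_ fun _ _ => rfl
    refine filter_congr fun n _ => ?_
    unfold Nat.ModEq
    rw [Nat.mod_eq_of_lt (mem_range.1 hr)]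
  have hc : ∀ {m n : ℕ}, m ≡ n [MOD q] → ∀ p ∈ T, F m ≡ F n [MOD p] := by
    intro m n h p hp
    exact hF.congr (h.of_dvd (by rw [hq]; exact dvd_prod_of_mem _ hp))
  have h1 : ET F G x T = ∑ r ∈ range q, ∑ r' ∈ range q, S r * S r' *
      (if ∀ p ∈ T, F r ≡ F r' [MOD p] then 1 else 0) := by
    unfold ET
    rw [hfib]
    refine sum_congr rfl fun r _ => ?_
    have h2 : ∀ n ∈ (Icc 1 x).filter (fun n => n ≡ r [MOD q]), ∑ n' ∈ Icc 1 x, G n * G n' *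
        (if ∀ p ∈ T, F n ≡ F n' [MOD p] then 1 else 0) = G n * ∑ r' ∈ range q, S r' *
        (if ∀ p ∈ T, F r ≡ F r' [MOD p] then 1 else 0) := by
      intro n hn
      have hn2 := (mem_filter.1 hn).2
      rw [hfib, mul_sum]
      refine sum_congr rfl fun r' _ => ?_
      rw [hS, sum_mul, mul_sum]
      refine sum_congr rfl fun n' hn' => ?_
      have hn'2 := (mem_filter.1 hn').2
      have e : (∀ p ∈ T, F n ≡ F n' [MOD p]) ↔ ∀ p ∈ T, F r ≡ F r' [MOD p] := by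
        constructor
        · intro h p hp
          exact ((hc hn2 p hp).symm.trans (h p hp)).trans (hc hn'2 p hp)
        · intro h p hp
          exact ((hc hn2 p hp).trans (h p hp)).trans (hc hn'2 p hp).symm
      simp only [e]
      ring
    rw [sum_congr rfl h2, ← sum_mul]
    have h3 : ∑ n ∈ (Icc 1 x).filter (fun n => n ≡ r [MOD q]), G n = S r := by rw [hS]
    rw [h3, mul_sum]
    refine sum_congr rfl fun r' _ => ?_
    ring
  rw [h1]
  have hSb : ∀ r, |S r| ≤ M := by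
    intro r
    rw [hS]
    exact hG r
  calc |∑ r ∈ range q, ∑ r' ∈ range q, S r * S r' * (if ∀ p ∈ T, F r ≡ F r' [MOD p] then 1 else 0)|
      ≤ ∑ r ∈ range q, ∑ r' ∈ range q, M * M := by
        refine (abs_sum_le_sum_abs _ _).trans (sum_le_sum fun r _ => ?_)
        refine (abs_sum_le_sum_abs _ _).trans (sum_le_sum fun r' _ => ?_)
        rw [abs_mul, abs_mul]
        have h5 : |(if ∀ p ∈ T, F r ≡ F r' [MOD p] then (1 : ℝ) else 0)| ≤ 1 := by split_ifs <;> norm_num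
        calc |S r| * |S r'| * _ ≤ (M * M) * 1 :=
              mul_le_mul (mul_le_mul (hSb r) (hSb r') (abs_nonneg _) hM) h5 (abs_nonneg _) (by positivity)
          _ = M * M := mul_one _
    _ = (q : ℝ) ^ 2 * M ^ 2 := by
        rw [sum_const, sum_const, card_range, nsmul_eq_mul, nsmul_eq_mul]
        ring

/-- large moduli -/
lemma ET_large {F : ℕ → ℕ} {c : ℕ} (hF : Adm F c) {G : ℕ → ℝ} {x : ℕ} {T : Finset ℕ}
    (hT : ∀ p ∈ T, p.Prime) (hG : ∀ n, |G n| ≤ 1) :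
    |ET F G x T| ≤ (x : ℝ) * ((x : ℝ) / ((∏ p ∈ T, p : ℕ) : ℝ) + 1) * (c : ℝ) ^ T.card := by
  classical
  have hq0 : 0 < ∏ p ∈ T, p := prod_pos fun p hp => (hT p hp).pos
  unfold ET
  have h1 : ∀ n ∈ Icc 1 x, |∑ n' ∈ Icc 1 x, G n * G n' * (if ∀ p ∈ T, F n ≡ F n' [MOD p] then 1 else 0)| ≤
      ((x : ℝ) / ((∏ p ∈ T, p : ℕ) : ℝ) + 1) * (c : ℝ) ^ T.card := by
    intro n _
    have h2 : |∑ n' ∈ Icc 1 x, G n * G n' * (if ∀ p ∈ T, F n ≡ F n' [MOD p] then 1 else 0)| ≤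
        (((Icc 1 x).filter (fun n' => ∀ p ∈ T, F (n' % p) ≡ F n [MOD p])).card : ℝ) := by
      rw [card_filter]
      push_cast
      refine (abs_sum_le_sum_abs _ _).trans (sum_le_sum fun n' _ => ?_)
      have e : (∀ p ∈ T, F n ≡ F n' [MOD p]) ↔ ∀ p ∈ T, F (n' % p) ≡ F n [MOD p] := by
        constructor
        · intro h p hp
          exact (hF.per p n').trans (h p hp).symm
        · intro h p hp
          exact ((hF.per p n').symm.trans (h p hp)).symm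
      simp only [e]
      rw [abs_mul, abs_mul]
      split_ifs
      · rw [abs_one, mul_one]
        exact mul_le_one₀ (hG n) (abs_nonneg _) (hG n')
      · simp
    have h3 := count_sys (fun p r => F r ≡ F n [MOD p]) x T hT 1 le_rfl
      (fun p hp hd => (hT p hp).one_lt.ne' (Nat.dvd_one.1 hd)) 0
    have h4 : ((Icc 1 x).filter (fun n' => n' ≡ 0 [MOD 1] ∧ ∀ p ∈ T, F (n' % p) ≡ F n [MOD p])) =
        (Icc 1 x).filter (fun n' => ∀ p ∈ T, F (n' % p) ≡ F n [MOD p]) := by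
      refine filter_congr fun n' _ => ?_
      constructor
      · exact fun h => h.2
      · exact fun h => ⟨Nat.modEq_one, h⟩
    rw [h4] at h3
    have h5 := (abs_le.1 h3).2
    have h6 : ∏ p ∈ T, (((range p).filter (fun r => F r ≡ F n [MOD p])).card : ℝ) ≤ (c : ℝ) ^ T.card := by
      rw [← prod_const]
      exact prod_le_prod (fun _ _ => Nat.cast_nonneg _) fun p hp => by exact_mod_cast hF.few p (hT p hp) (F n)
    have h7 : ∏ p ∈ T, ((((range p).filter (fun r => F r ≡ F n [MOD p])).card : ℝ) / p) ≤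
        (c : ℝ) ^ T.card / ((∏ p ∈ T, p : ℕ) : ℝ) := by
      rw [prod_div_distrib]
      push_cast
      exact div_le_div_of_nonneg_right h6 (prod_nonneg fun _ _ => Nat.cast_nonneg _)
    have h8 : (x : ℝ) / ((1 : ℕ) : ℝ) * ∏ p ∈ T, ((((range p).filter (fun r => F r ≡ F n [MOD p])).card : ℝ) / p) ≤
        x * ((c : ℝ) ^ T.card / ((∏ p ∈ T, p : ℕ) : ℝ)) := by
      rw [Nat.cast_one, div_one]
      exact mul_le_mul_of_nonneg_left h7 (Nat.cast_nonneg _)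
    refine h2.trans ?_
    have h9 : ((x : ℝ) / ((∏ p ∈ T, p : ℕ) : ℝ) + 1) * (c : ℝ) ^ T.card =
        x * ((c : ℝ) ^ T.card / ((∏ p ∈ T, p : ℕ) : ℝ)) + (c : ℝ) ^ T.card := by ring
    rw [h9]
    linarith
  refine (abs_sum_le_sum_abs _ _).trans ((sum_le_sum h1).trans (le_of_eq ?_))
  rw [sum_const, nsmul_eq_mul, Nat.card_Icc, Nat.add_sub_cancel]
  ring

/-- a product over primes -/
lemma prod_le (K z : ℕ) (hz : 1 ≤ z) : ∏ p ∈ pz z, (1 + (K : ℝ) / p) ≤ (3 * (z : ℝ)) ^ K := by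
  have hz0 : (1 : ℝ) ≤ z := by exact_mod_cast hz
  have h1 : ∏ p ∈ pz z, (1 + (K : ℝ) / p) ≤ Real.exp (∑ p ∈ pz z, (K : ℝ) / p) := by
    rw [Real.exp_sum]
    refine prod_le_prod (fun p _ => by positivity) fun p _ => ?_
    have := Real.add_one_le_exp ((K : ℝ) / p)
    linarith
  have h2 : ∑ p ∈ pz z, (K : ℝ) / p ≤ K * (1 + Real.log z) := by
    have h3 : ∑ p ∈ pz z, (1 : ℝ) / p ≤ 1 + Real.log z := by
      have h4 : ∑ p ∈ pz z, (1 : ℝ) / p ≤ ∑ m ∈ Icc 1 z, (1 : ℝ) / m := by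
        refine sum_le_sum_of_subset_of_nonneg (fun p hp => ?_) fun _ _ _ => by positivity
        exact (mem_filter.1 hp).1
      refine h4.trans ?_
      have h5 := harmonic_le_one_add_log z
      rw [harmonic_eq_sum_Icc] at h5
      push_cast at h5
      simpa [one_div] using h5
    have h6 : ∑ p ∈ pz z, (K : ℝ) / p = K * ∑ p ∈ pz z, (1 : ℝ) / p := by
      rw [mul_sum]
      exact sum_congr rfl fun p _ => by ring
    rw [h6]
    exact mul_le_mul_of_nonneg_left h3 (Nat.cast_nonneg _)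
  refine h1.trans ?_
  calc Real.exp (∑ p ∈ pz z, (K : ℝ) / p) ≤ Real.exp (K * (1 + Real.log z)) := Real.exp_le_exp.2 h2
    _ = (Real.exp 1 * z) ^ K := by
        rw [Real.exp_nat_mul, Real.exp_add, Real.exp_log (by linarith)]
    _ ≤ (3 * (z : ℝ)) ^ K := by
        have := Real.exp_one_lt_d9
        exact pow_le_pow_left₀ (by positivity) (by nlinarith) K

/-- the sum over pairs with the pair density -/
theorem pair_sum {F : ℕ → ℕ} {c : ℕ} (hF : Adm F c) {G : ℕ → ℝ} (hG : ∀ n, |G n| ≤ 1) (x z k : ℕ)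
    (hz : 1 ≤ z) {Y M : ℝ} (hY : 1 ≤ Y) (hM : 0 ≤ M)
    (hGs : ∀ q r : ℕ, 1 ≤ q → (q : ℝ) ≤ Y → |∑ n ∈ (Icc 1 x).filter (fun n => n ≡ r [MOD q]), G n| ≤ M) :
    |∑ n ∈ Icc 1 x, ∑ n' ∈ Icc 1 x, G n * G n' * fz z (F n) (F n') ^ k| ≤
      (Y ^ 2 * M ^ 2 + (x : ℝ) ^ 2 / Y + x) * (3 * (z : ℝ)) ^ (k * 2 ^ (k + 1) * c) := by
  classical
  have hc1 : (1 : ℝ) ≤ c := by exact_mod_cast hF.one
  have hprime : ∀ p ∈ pz z, p.Prime := fun p hp => (mem_pz.1 hp).2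
  have h1 : ∑ n ∈ Icc 1 x, ∑ n' ∈ Icc 1 x, G n * G n' * fz z (F n) (F n') ^ k =
      ∑ T ∈ (pz z).powerset, (∏ p ∈ T, (gA p ^ k - gB p ^ k)) * (∏ p ∈ pz z \ T, gB p ^ k) * ET F G x T := by
    unfold ET
    simp only [fz_pow, mul_sum]
    symm
    rw [sum_comm]
    refine sum_congr rfl fun n _ => ?_
    rw [sum_comm]
    refine sum_congr rfl fun n' _ => sum_congr rfl fun T _ => ?_
    ring
  have hR0 : 0 ≤ Y ^ 2 * M ^ 2 + (x : ℝ) ^ 2 / Y + x := by positivity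
  have h2 : ∀ T ∈ (pz z).powerset, |ET F G x T| ≤ (Y ^ 2 * M ^ 2 + (x : ℝ) ^ 2 / Y + x) * (c : ℝ) ^ T.card := by
    intro T hT
    have hTp : ∀ p ∈ T, p.Prime := fun p hp => hprime p (mem_powerset.1 hT hp)
    have hq0 : 0 < ∏ p ∈ T, p := prod_pos fun p hp => (hTp p hp).pos
    have hq0r : (0 : ℝ) < ((∏ p ∈ T, p : ℕ) : ℝ) := by exact_mod_cast hq0
    have hcp : (1 : ℝ) ≤ (c : ℝ) ^ T.card := one_le_pow₀ hc1
    rcases le_or_gt (((∏ p ∈ T, p : ℕ) : ℝ)) Y with h3 | h3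
    · have h4 := ET_small hF hTp hM (fun r => hGs _ r hq0 h3)
      refine h4.trans ?_
      have h5 : ((∏ p ∈ T, p : ℕ) : ℝ) ^ 2 * M ^ 2 ≤ Y ^ 2 * M ^ 2 :=
        mul_le_mul_of_nonneg_right (pow_le_pow_left₀ hq0r.le h3 2) (by positivity)
      have h6 : (0 : ℝ) ≤ (x : ℝ) ^ 2 / Y + x := by positivity
      calc ((∏ p ∈ T, p : ℕ) : ℝ) ^ 2 * M ^ 2 ≤ (Y ^ 2 * M ^ 2 + (x : ℝ) ^ 2 / Y + x) * 1 := by linarith
        _ ≤ _ := mul_le_mul_of_nonneg_left hcp hR0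
    · have h4 := ET_large hF hTp hG (x := x)
      refine h4.trans ?_
      have h5 : (x : ℝ) / ((∏ p ∈ T, p : ℕ) : ℝ) ≤ x / Y := by
        apply div_le_div_of_nonneg_left (Nat.cast_nonneg _) (by linarith) h3.le
      have h6 : (x : ℝ) * ((x : ℝ) / ((∏ p ∈ T, p : ℕ) : ℝ) + 1) ≤ Y ^ 2 * M ^ 2 + (x : ℝ) ^ 2 / Y + x := by
        calc (x : ℝ) * ((x : ℝ) / ((∏ p ∈ T, p : ℕ) : ℝ) + 1) ≤ x * (x / Y + 1) :=
              mul_le_mul_of_nonneg_left (by linarith) (Nat.cast_nonneg _)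
          _ = (x : ℝ) ^ 2 / Y + x := by ring
          _ ≤ _ := by
            have : 0 ≤ Y ^ 2 * M ^ 2 := by positivity
            linarith
      exact mul_le_mul_of_nonneg_right h6 (by linarith)
  rw [h1]
  calc |∑ T ∈ (pz z).powerset, (∏ p ∈ T, (gA p ^ k - gB p ^ k)) * (∏ p ∈ pz z \ T, gB p ^ k) * ET F G x T|
      ≤ ∑ T ∈ (pz z).powerset, (Y ^ 2 * M ^ 2 + (x : ℝ) ^ 2 / Y + x) *
        ∏ p ∈ T, ((k * 2 ^ (k + 1) * c : ℕ) : ℝ) / p := by
        refine (abs_sum_le_sum_abs _ _).trans (sum_le_sum fun T hT => ?_)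
        have hTp : ∀ p ∈ T, p.Prime := fun p hp => hprime p (mem_powerset.1 hT hp)
        have h3 : 0 ≤ ∏ p ∈ T, (gA p ^ k - gB p ^ k) := prod_nonneg fun p hp => (pow_diff (hTp p hp) k).1
        have h4 : 0 ≤ ∏ p ∈ pz z \ T, gB p ^ k := prod_nonneg fun p hp =>
          pow_nonneg (gB_bd (hprime p (mem_sdiff.1 hp).1)).1 k
        have h5 : ∏ p ∈ pz z \ T, gB p ^ k ≤ 1 := prod_le_one
          (fun p hp => pow_nonneg (gB_bd (hprime p (mem_sdiff.1 hp).1)).1 k)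
          fun p hp => pow_le_one₀ (gB_bd (hprime p (mem_sdiff.1 hp).1)).1 (gB_bd (hprime p (mem_sdiff.1 hp).1)).2
        have h6 : ∏ p ∈ T, (gA p ^ k - gB p ^ k) ≤ ∏ p ∈ T, ((k * 2 ^ (k + 1) : ℕ) : ℝ) / p :=
          prod_le_prod (fun p hp => (pow_diff (hTp p hp) k).1) fun p hp => (pow_diff (hTp p hp) k).2
        rw [abs_mul, abs_mul, abs_of_nonneg h3, abs_of_nonneg h4]
        have h7 : (∏ p ∈ T, (gA p ^ k - gB p ^ k)) * (∏ p ∈ pz z \ T, gB p ^ k) ≤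
            ∏ p ∈ T, ((k * 2 ^ (k + 1) : ℕ) : ℝ) / p := by
          calc _ ≤ (∏ p ∈ T, ((k * 2 ^ (k + 1) : ℕ) : ℝ) / p) * 1 :=
                mul_le_mul h6 h5 h4 (prod_nonneg fun _ _ => by positivity)
            _ = _ := mul_one _
        calc (∏ p ∈ T, (gA p ^ k - gB p ^ k)) * (∏ p ∈ pz z \ T, gB p ^ k) * |ET F G x T|
            ≤ (∏ p ∈ T, ((k * 2 ^ (k + 1) : ℕ) : ℝ) / p) *
              ((Y ^ 2 * M ^ 2 + (x : ℝ) ^ 2 / Y + x) * (c : ℝ) ^ T.card) :=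
              mul_le_mul h7 (h2 T hT) (abs_nonneg _) (prod_nonneg fun _ _ => by positivity)
          _ = (Y ^ 2 * M ^ 2 + (x : ℝ) ^ 2 / Y + x) * ((∏ p ∈ T, ((k * 2 ^ (k + 1) : ℕ) : ℝ) / p) *
              (c : ℝ) ^ T.card) := by ring
          _ = _ := by
            congr 1
            rw [← prod_const, ← prod_mul_distrib]
            refine prod_congr rfl fun p _ => ?_
            push_cast
            ring
    _ = (Y ^ 2 * M ^ 2 + (x : ℝ) ^ 2 / Y + x) * ∏ p ∈ pz z, (1 + ((k * 2 ^ (k + 1) * c : ℕ) : ℝ) / p) := by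
        rw [← mul_sum, prod_one_add]
    _ ≤ _ := mul_le_mul_of_nonneg_left (prod_le _ z hz) hR0

end Pool.Agent.TH890.OA
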