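import Pool.Agent.TH890.OA.A2

/-!
Orthogonality of sequences that are small in residue classes to prime values (helper890), part 3: the
second moment of the sieve model over the shifts.
-/

set_option autoImplicit false

namespace Pool.Agent.TH890.OA

open Finset Pool.Agent.H373R2.T7

/-- the sieve model at `m` -/
noncomputable def lz (z m : ℕ) : ℝ := if ∀ p ∈ pz z, ¬ p ∣ m then (Vz z)⁻¹ else 0

/-- all vectors -/
def Bx (k A : ℕ) : Finset (Fin k → ℕ) := Fintype.piFinset fun _ => Icc 1 A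

/-- the model sum -/
noncomputable def ms {k : ℕ} (F : ℕ → ℕ) (G : ℕ → ℝ) (z x : ℕ) (a : Fin k → ℕ) : ℝ :=
  ∑ n ∈ Icc 1 x, G n * ∏ i, lz z (a i + F n)

/-- the number of rough pairs -/
noncomputable def RR (A z m m' : ℕ) : ℝ :=
  (((Icc 1 A).filter (fun v : ℕ => ∀ p ∈ pz z, ¬ (p ∣ v + m ∨ p ∣ v + m'))).card : ℝ)

lemma sum_lz (A z m m' : ℕ) : ∑ v ∈ Icc 1 A, lz z (v + m) * lz z (v + m') = (Vz z)⁻¹ ^ 2 * RR A z m m' := by
  classical
  unfold RR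
  rw [card_filter]
  push_cast
  rw [mul_sum]
  refine sum_congr rfl fun v _ => ?_
  unfold lz
  by_cases h1 : ∀ p ∈ pz z, ¬ p ∣ v + m
  · by_cases h2 : ∀ p ∈ pz z, ¬ p ∣ v + m'
    · rw [if_pos h1, if_pos h2, if_pos (fun p hp h => h.elim (h1 p hp) (h2 p hp))]
      ring
    · have h3 : ¬ ∀ p ∈ pz z, ¬ (p ∣ v + m ∨ p ∣ v + m') := fun h => h2 fun p hp hd => h p hp (Or.inr hd)
      rw [if_neg h2, if_neg h3]
      ring
  · have h3 : ¬ ∀ p ∈ pz z, ¬ (p ∣ v + m ∨ p ∣ v + m') := fun h => h1 fun p hp hd => h p hp (Or.inl hd)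
    rw [if_neg h1, if_neg h3]
    ring

lemma second {k : ℕ} (F : ℕ → ℕ) (G : ℕ → ℝ) (z x A : ℕ) :
    ∑ a ∈ Bx k A, ms F G z x a ^ 2 =
      ∑ n ∈ Icc 1 x, ∑ n' ∈ Icc 1 x, G n * G n' * ((Vz z)⁻¹ ^ 2 * RR A z (F n) (F n')) ^ k := by
  classical
  have h1 : ∀ a : Fin k → ℕ, ms F G z x a ^ 2 = ∑ n ∈ Icc 1 x, ∑ n' ∈ Icc 1 x,
      G n * G n' * ∏ i, (lz z (a i + F n) * lz z (a i + F n')) := by
    intro a
    unfold ms
    rw [sq, sum_mul_sum]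
    refine sum_congr rfl fun n _ => sum_congr rfl fun n' _ => ?_
    rw [prod_mul_distrib]
    ring
  simp only [h1]
  rw [sum_comm]
  refine sum_congr rfl fun n _ => ?_
  rw [sum_comm]
  refine sum_congr rfl fun n' _ => ?_
  rw [← mul_sum]
  congr 1
  unfold Bx
  rw [← prod_univ_sum (fun _ : Fin k => Icc 1 A) (fun _ v => lz z (v + F n) * lz z (v + F n'))]
  rw [prod_const, card_univ, Fintype.card_fin, sum_lz]

lemma pow_sub_le {u w H : ℝ} (hu : 0 ≤ u) (hw : 0 ≤ w) (huH : u ≤ H) (hwH : w ≤ H) (hH : 1 ≤ H) (k : ℕ) :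
    |u ^ k - w ^ k| ≤ k * H ^ k * |u - w| := by
  induction k with
  | zero => simp
  | succ k ih =>
    have e : u ^ (k + 1) - w ^ (k + 1) = u * (u ^ k - w ^ k) + w ^ k * (u - w) := by ring
    have h0 : 0 ≤ |u - w| := abs_nonneg _
    have h1 : |u * (u ^ k - w ^ k)| ≤ H * (k * H ^ k * |u - w|) := by
      rw [abs_mul, abs_of_nonneg hu]
      exact mul_le_mul huH ih (abs_nonneg _) (by linarith)
    have h2 : |w ^ k * (u - w)| ≤ H ^ (k + 1) * |u - w| := by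
      rw [abs_mul, abs_of_nonneg (pow_nonneg hw k)]
      apply mul_le_mul_of_nonneg_right _ h0
      calc w ^ k ≤ H ^ k := pow_le_pow_left₀ hw hwH k
        _ ≤ H ^ (k + 1) := pow_le_pow_right₀ hH (by omega)
    rw [e]
    refine (abs_add_le _ _).trans ((add_le_add h1 h2).trans (le_of_eq ?_))
    push_cast
    ring

lemma fz_bd (z m m' : ℕ) : 0 ≤ fz z m m' ∧ fz z m m' ≤ (Vz z)⁻¹ := by
  unfold fz Vz
  rw [← prod_inv_distrib]
  constructor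
  · refine prod_nonneg fun p hp => ?_
    have hpp := (mem_pz.1 hp).2
    split_ifs
    · exact zero_le_one.trans (gA_bd hpp).1
    · exact (gB_bd hpp).1
  · refine prod_le_prod (fun p hp => ?_) fun p hp => ?_
    · have hpp := (mem_pz.1 hp).2
      split_ifs
      · exact zero_le_one.trans (gA_bd hpp).1
      · exact (gB_bd hpp).1
    · have hpp := (mem_pz.1 hp).2
      have h1 : gA p = (1 - 1 / (p : ℝ))⁻¹ := rfl
      rw [← h1]
      split_ifs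
      · exact le_rfl
      · exact (gAB hpp).1

/-- the second moment -/
theorem moment (F : ℕ → ℕ) {c : ℕ} (hF : Adm F c) {G : ℕ → ℝ} (hG : ∀ n, |G n| ≤ 1) (x z k A : ℕ)
    (hz : 1 ≤ z) (hA : 1 ≤ A) {Y M δ : ℝ} (hY : 1 ≤ Y) (hM : 0 ≤ M) (hδ : 0 ≤ δ)
    (hGs : ∀ q r : ℕ, 1 ≤ q → (q : ℝ) ≤ Y → |∑ n ∈ (Icc 1 x).filter (fun n => n ≡ r [MOD q]), G n| ≤ M)
    (hR : ∀ m m' : ℕ, |RR A z m m' - A * ∏ p ∈ pz z, (1 - (nuB (Q2 m m') p : ℝ) / p)| ≤ δ * A) :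
    ∑ a ∈ Bx k A, ms F G z x a ^ 2 ≤ (A : ℝ) ^ k * ((Y ^ 2 * M ^ 2 + (x : ℝ) ^ 2 / Y + x) *
      (3 * (z : ℝ)) ^ (k * 2 ^ (k + 1) * c) + (x : ℝ) ^ 2 * (k * (z : ℝ) ^ (2 * (k + 1)) * δ)) := by
  rw [second]
  have hz1 : (1 : ℝ) ≤ z := by exact_mod_cast hz
  have hAr : (1 : ℝ) ≤ A := by exact_mod_cast hA
  have hA0 : (0 : ℝ) < A := by linarith
  have hV0 : 0 < Vz z := Vz_pos z
  have hVi0 : 0 < (Vz z)⁻¹ := inv_pos.2 hV0
  have hVi1 : 1 ≤ (Vz z)⁻¹ := (one_le_inv₀ hV0).2 (Vz_le_one z)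
  have hViz : (Vz z)⁻¹ ≤ z := Vz_inv_le z hz
  have hH1 : 1 ≤ (Vz z)⁻¹ ^ 2 := one_le_pow₀ hVi1
  have key : ∀ m m' : ℕ, |((Vz z)⁻¹ ^ 2 * RR A z m m') ^ k - (A : ℝ) ^ k * fz z m m' ^ k| ≤
      (A : ℝ) ^ k * (k * (z : ℝ) ^ (2 * (k + 1)) * δ) := by
    intro m m'
    obtain ⟨u, hu⟩ : ∃ u : ℝ, u = (Vz z)⁻¹ ^ 2 * (RR A z m m' / A) := ⟨_, rfl⟩
    have hRR0 : 0 ≤ RR A z m m' := by unfold RR; exact Nat.cast_nonneg _
    have hRRA : RR A z m m' ≤ A := by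
      unfold RR
      have : ((Icc 1 A).filter (fun v : ℕ => ∀ p ∈ pz z, ¬ (p ∣ v + m ∨ p ∣ v + m'))).card ≤ A := by
        refine (card_filter_le _ _).trans ?_
        simp
      exact_mod_cast this
    have hu0 : 0 ≤ u := by rw [hu]; positivity
    have huH : u ≤ (Vz z)⁻¹ ^ 2 := by
      rw [hu]
      calc (Vz z)⁻¹ ^ 2 * (RR A z m m' / A) ≤ (Vz z)⁻¹ ^ 2 * 1 := by
            apply mul_le_mul_of_nonneg_left _ (by positivity)
            rw [div_le_one hA0]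
            exact hRRA
        _ = _ := mul_one _
    obtain ⟨f1, f2⟩ := fz_bd z m m'
    have hfH : fz z m m' ≤ (Vz z)⁻¹ ^ 2 := f2.trans (by nlinarith)
    have hd : |u - fz z m m'| ≤ (Vz z)⁻¹ ^ 2 * δ := by
      rw [hu, fz_eq, ← mul_sub, abs_mul, abs_of_nonneg (by positivity : (0 : ℝ) ≤ (Vz z)⁻¹ ^ 2)]
      apply mul_le_mul_of_nonneg_left _ (by positivity)
      have e : RR A z m m' / A - ∏ p ∈ pz z, (1 - (nuB (Q2 m m') p : ℝ) / p) =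
          (RR A z m m' - A * ∏ p ∈ pz z, (1 - (nuB (Q2 m m') p : ℝ) / p)) / A := by
        field_simp
      rw [e, abs_div, abs_of_pos hA0, div_le_iff₀ hA0]
      exact hR m m'
    have h1 := pow_sub_le hu0 f1 huH hfH hH1 k
    have e1 : ((Vz z)⁻¹ ^ 2 * RR A z m m') ^ k = (A : ℝ) ^ k * u ^ k := by
      rw [hu, ← mul_pow]
      congr 1
      field_simp
    rw [e1, ← mul_sub, abs_mul, abs_of_nonneg (by positivity : (0 : ℝ) ≤ (A : ℝ) ^ k)]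
    apply mul_le_mul_of_nonneg_left _ (by positivity)
    calc |u ^ k - fz z m m' ^ k| ≤ k * ((Vz z)⁻¹ ^ 2) ^ k * ((Vz z)⁻¹ ^ 2 * δ) :=
          h1.trans (mul_le_mul_of_nonneg_left hd (by positivity))
      _ = k * ((Vz z)⁻¹) ^ (2 * (k + 1)) * δ := by ring
      _ ≤ k * (z : ℝ) ^ (2 * (k + 1)) * δ := by
          apply mul_le_mul_of_nonneg_right _ hδ
          apply mul_le_mul_of_nonneg_left _ (Nat.cast_nonneg _)
          exact pow_le_pow_left₀ hVi0.le hViz _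
  have hsplit : ∑ n ∈ Icc 1 x, ∑ n' ∈ Icc 1 x, G n * G n' * ((Vz z)⁻¹ ^ 2 * RR A z (F n) (F n')) ^ k =
      (A : ℝ) ^ k * ∑ n ∈ Icc 1 x, ∑ n' ∈ Icc 1 x, G n * G n' * fz z (F n) (F n') ^ k +
      ∑ n ∈ Icc 1 x, ∑ n' ∈ Icc 1 x, G n * G n' * (((Vz z)⁻¹ ^ 2 * RR A z (F n) (F n')) ^ k -
        (A : ℝ) ^ k * fz z (F n) (F n') ^ k) := by
    rw [mul_sum, ← sum_add_distrib]
    refine sum_congr rfl fun n _ => ?_
    rw [mul_sum, ← sum_add_distrib]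
    refine sum_congr rfl fun n' _ => ?_
    ring
  rw [hsplit]
  have hP := pair_sum hF hG x z k hz hY hM hGs
  have hE : ∑ n ∈ Icc 1 x, ∑ n' ∈ Icc 1 x, G n * G n' * (((Vz z)⁻¹ ^ 2 * RR A z (F n) (F n')) ^ k -
        (A : ℝ) ^ k * fz z (F n) (F n') ^ k) ≤ (x : ℝ) ^ 2 * ((A : ℝ) ^ k * (k * (z : ℝ) ^ (2 * (k + 1)) * δ)) := by
    calc _ ≤ ∑ n ∈ Icc 1 x, ∑ n' ∈ Icc 1 x, (A : ℝ) ^ k * (k * (z : ℝ) ^ (2 * (k + 1)) * δ) := by
          refine sum_le_sum fun n _ => sum_le_sum fun n' _ => ?_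
          refine (le_abs_self _).trans ?_
          rw [abs_mul, abs_mul]
          calc |G n| * |G n'| * _ ≤ 1 * _ := by
                apply mul_le_mul_of_nonneg_right _ (abs_nonneg _)
                exact mul_le_one₀ (hG n) (abs_nonneg _) (hG n')
            _ ≤ _ := by rw [one_mul]; exact key _ _
      _ = _ := by
          rw [sum_const, sum_const, Nat.card_Icc, Nat.add_sub_cancel, nsmul_eq_mul, nsmul_eq_mul]
          ring
  have hP2 : (A : ℝ) ^ k * ∑ n ∈ Icc 1 x, ∑ n' ∈ Icc 1 x, G n * G n' * fz z (F n) (F n') ^ k ≤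
      (A : ℝ) ^ k * ((Y ^ 2 * M ^ 2 + (x : ℝ) ^ 2 / Y + x) * (3 * (z : ℝ)) ^ (k * 2 ^ (k + 1) * c)) :=
    mul_le_mul_of_nonneg_left ((le_abs_self _).trans hP) (by positivity)
  refine (add_le_add hP2 hE).trans (le_of_eq ?_)
  ring

end Pool.Agent.TH890.OA
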