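import Pool.Agent.TH890.OA.A3
import Pool.Agent.H373R2.T7.Sys2

/-!
Orthogonality of sequences that are small in residue classes to prime values (helper890), part 4: the
theorem.
-/

set_option autoImplicit false

namespace Pool.Agent.TH890.OA

open Finset Polynomial Pool.Agent.H373R2.T7

/-- natural values -/
def FN (P : ℤ[X]) (n : ℕ) : ℕ := (P.eval (n : ℤ)).toNat

lemma FN_cast {P : ℤ[X]} (hP : ∀ n : ℕ, 0 ≤ P.eval (n : ℤ)) (n : ℕ) : ((FN P n : ℕ) : ℤ) = P.eval (n : ℤ) :=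
  Int.toNat_of_nonneg (hP n)

lemma adm {P : ℤ[X]} (hd : 1 ≤ P.natDegree) (hl : 0 < P.leadingCoeff) (hP : ∀ n : ℕ, 0 ≤ P.eval (n : ℤ)) :
    ∃ c, Adm (FN P) c := by
  classical
  refine ⟨sysC (fun _ : Fin 1 => P), sysC_pos _, fun p n => ?_, fun p hp m => ?_⟩
  · rw [← Int.natCast_modEq_iff, FN_cast hP, FN_cast hP, Int.modEq_iff_dvd]
    have h1 : ((n : ℤ) - ((n % p : ℕ) : ℤ)) ∣ P.eval (n : ℤ) - P.eval ((n % p : ℕ) : ℤ) :=
      sub_dvd_eval_sub _ _ P
    refine dvd_trans ?_ h1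
    refine ⟨((n / p : ℕ) : ℤ), ?_⟩
    have := Nat.mod_add_div n p
    have h2 : ((n % p : ℕ) : ℤ) + (p : ℤ) * ((n / p : ℕ) : ℤ) = n := by exact_mod_cast this
    linarith
  · have h1 := (sysQ_per (fun _ : Fin 1 => P) (fun _ => hd) (fun _ => hl) (fun _ => -1) (fun _ => Or.inr rfl)
      (fun _ => m)).few p hp
    refine le_trans ?_ h1
    unfold nuB
    refine card_le_card fun r hr => ?_
    rw [mem_filter] at hr ⊢
    refine ⟨hr.1, 0, ?_⟩
    unfold vl
    have h2 := (Int.natCast_modEq_iff.2 hr.2).dvd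
    rw [FN_cast hP] at h2
    have e : ((m : ℕ) : ℤ) + -1 * P.eval (r : ℤ) = (m : ℤ) - P.eval (r : ℤ) := by ring
    rw [e]
    exact h2

/-- the sum over primes -/
noncomputable def ps {k : ℕ} (P : ℤ[X]) (G : ℕ → ℝ) (x : ℕ) (a : Fin k → ℕ) : ℝ :=
  ∑ n ∈ Icc 1 x, G n * ∏ i, lamP (vl (fun _ : Fin k => P) (fun _ => 1) a i n)

lemma diff_ps {k : ℕ} {P : ℤ[X]} (hP : ∀ n : ℕ, 0 ≤ P.eval (n : ℤ)) (G : ℕ → ℝ) (z x : ℕ) {a : Fin k → ℕ}
    (ha : ∀ i, 1 ≤ a i) :
    ∑ n ∈ Icc 1 x, G n * (∏ i, lamP (vl (fun _ : Fin k => P) (fun _ => 1) a i n) -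
      ∏ i, lamzI z (vl (fun _ : Fin k => P) (fun _ => 1) a i n)) = ps P G x a - ms (FN P) G z x a := by
  unfold ps ms
  rw [← sum_sub_distrib]
  refine sum_congr rfl fun n _ => ?_
  rw [mul_sub]
  congr 2
  refine prod_congr rfl fun i _ => ?_
  have e : vl (fun _ : Fin k => P) (fun _ => 1) a i n = ((a i + FN P n : ℕ) : ℤ) := by
    unfold vl
    push_cast
    rw [FN_cast hP]
    ring
  rw [e]
  unfold lamzI lz lamz
  rw [if_pos (by have := ha i; push_cast; omega), Int.toNat_natCast]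

theorem ortho {P : ℤ[X]} (hd : 1 ≤ P.natDegree) (hl : 0 < P.leadingCoeff) (hP : ∀ n : ℕ, 0 ≤ P.eval (n : ℤ))
    (k B U : ℕ) (hB : 1 ≤ B) : ∃ V x₀ : ℕ, ∀ x : ℕ, x₀ ≤ x → ∀ A : ℕ, A ≤ B * x ^ P.natDegree →
    x ^ P.natDegree ≤ B * A → ∀ G : ℕ → ℝ, (∀ n, |G n| ≤ 1) →
    (∀ q r : ℕ, 1 ≤ q → (q : ℝ) ≤ Real.log x ^ V →
      |∑ n ∈ (Icc 1 x).filter (fun n => n ≡ r [MOD q]), G n| ≤ x / Real.log x ^ V) →
    (((Bx k A).filter (fun a => ¬ |ps P G x a| ≤ x / Real.log x ^ U)).card : ℝ) ≤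
      (A : ℝ) ^ k / Real.log x ^ U := by
  classical
  obtain ⟨c, hF⟩ := adm hd hl hP
  obtain ⟨B0, hdiff⟩ := sys_diffP (fun _ : Fin k => P) (fun _ => hd) (fun _ => hl) (fun _ => 1)
    (fun _ => Or.inl rfl) B hB (2 * U + 1)
  obtain ⟨n1, hdiff⟩ := hdiff (B0 + 1)
  obtain ⟨K, hK⟩ : ∃ K, K = k * 2 ^ (k + 1) * c := ⟨_, rfl⟩
  obtain ⟨W, hW⟩ : ∃ W, W = (B0 + 2) * K + (3 * U + 1) := ⟨_, rfl⟩
  obtain ⟨W', hW'⟩ : ∃ W', W' = (B0 + 2) * (2 * (k + 1)) + (3 * U + 2) := ⟨_, rfl⟩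
  obtain ⟨n2, hcnt⟩ := sys_count 2 (B0 + 2) W' (by norm_num)
  obtain ⟨n3, h3⟩ := ev_L' (32 + k * 2 ^ W' + 2 * Real.log B + 2 * 2 ^ (B0 + 1))
  obtain ⟨n4, h4⟩ := ev_log' W 1
  refine ⟨2 * W, max (max n1 (B * n2 + 1)) (max (max n3 n4) 3), fun x hx A hA1 hA2 G hG hGs => ?_⟩
  have a1 : n1 ≤ x := (le_max_left _ _).trans ((le_max_left _ _).trans hx)
  have a2 : B * n2 + 1 ≤ x := (le_max_right _ _).trans ((le_max_left _ _).trans hx)
  have a3 : n3 ≤ x := (le_max_left _ _).trans ((le_max_left _ _).trans ((le_max_right _ _).trans hx))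
  have a4 : n4 ≤ x := (le_max_right _ _).trans ((le_max_left _ _).trans ((le_max_right _ _).trans hx))
  have a5 : 3 ≤ x := (le_max_right _ _).trans ((le_max_right _ _).trans hx)
  have hx3 : (3 : ℝ) ≤ x := by exact_mod_cast a5
  have hx0 : (0 : ℝ) < x := by linarith
  have f3 := h3 x a3
  have f4 := h4 x a4
  set L := Real.log x with hL
  have q1 : (0 : ℝ) ≤ k * 2 ^ W' := by positivity
  have q2 : (0 : ℝ) ≤ Real.log B := Real.log_natCast_nonneg _
  have q3 : (0 : ℝ) ≤ 2 * 2 ^ (B0 + 1) := by positivity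
  have L32 : 32 ≤ L := by linarith
  have L1 : 1 ≤ L := by linarith
  have L0 : 0 < L := by linarith
  -- A
  have hxA : x ≤ B * A := by
    refine le_trans ?_ hA2
    exact Nat.le_self_pow (by omega) x
  have hAn : n2 ≤ A := by
    by_contra h
    push Not at h
    have : B * A ≤ B * n2 := Nat.mul_le_mul_left _ h.le
    omega
  have hA0 : 1 ≤ A := by
    rcases Nat.eq_zero_or_pos A with h | h
    · rw [h, mul_zero] at hxA; omega
    · exact h
  have hAr : (1 : ℝ) ≤ A := by exact_mod_cast hA0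
  have hBr : (1 : ℝ) ≤ B := by exact_mod_cast hB
  have hlogA : L / 2 ≤ Real.log A := by
    have h1 : Real.log x ≤ Real.log ((B : ℝ) * A) := Real.log_le_log hx0 (by exact_mod_cast hxA)
    rw [Real.log_mul (by positivity) (by positivity)] at h1
    linarith
  have hlA0 : 0 < Real.log A := by linarith
  -- z
  obtain ⟨z, hz⟩ : ∃ z, z = ⌈L ^ B0⌉₊ := ⟨_, rfl⟩
  have hLB : 1 ≤ L ^ B0 := one_le_pow₀ L1
  have hz1 : L ^ B0 ≤ z := by rw [hz]; exact Nat.le_ceil _
  have hz0 : 1 ≤ z := by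
    have : (1 : ℝ) ≤ z := hLB.trans hz1
    exact_mod_cast this
  have hz2 : (z : ℝ) ≤ L ^ (B0 + 1) := by
    have h1 : (z : ℝ) < L ^ B0 + 1 := by rw [hz]; exact Nat.ceil_lt_add_one (by linarith)
    rw [pow_succ]
    nlinarith
  have hz3 : 3 * (z : ℝ) ≤ L ^ (B0 + 2) := by
    have e : L ^ (B0 + 2) = L ^ (B0 + 1) * L := by ring
    rw [e]
    have : (0 : ℝ) < L ^ (B0 + 1) := by positivity
    nlinarith
  -- the differences
  have hD := hdiff x a1 (fun _ => A) (fun _ => ⟨hA1, hA2⟩) z hz1 hz2 G (fun n _ => (hG n).trans L1)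
  have hD2 : ∑ a ∈ Bx k A, |ps P G x a - ms (FN P) G z x a| ≤ x * (A : ℝ) ^ k / L ^ (2 * U + 1) := by
    have e : ∑ a ∈ Bx k A, |ps P G x a - ms (FN P) G z x a| =
        ∑ a ∈ Fintype.piFinset (fun _ : Fin k => Icc 1 A), |∑ n ∈ Icc 1 x, G n *
        (∏ i, lamP (vl (fun _ : Fin k => P) (fun _ => 1) a i n) -
          ∏ i, lamzI z (vl (fun _ : Fin k => P) (fun _ => 1) a i n))| := by
      unfold Bx
      refine sum_congr rfl fun a ha => ?_
      rw [diff_ps hP G z x (fun i => (mem_Icc.1 ((Fintype.mem_piFinset.1 ha) i)).1)]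
    rw [e]
    refine hD.trans (le_of_eq ?_)
    rw [prod_const, card_univ, Fintype.card_fin]
  -- the second moment
  have hR : ∀ m m' : ℕ, |RR A z m m' - A * ∏ p ∈ pz z, (1 - (nuB (Q2 m m') p : ℝ) / p)| ≤
      (1 / Real.log A ^ W') * A := by
    intro m m'
    have hzA : (z : ℝ) ≤ Real.log A ^ (B0 + 2) := by
      calc (z : ℝ) ≤ L ^ (B0 + 1) := hz2
        _ ≤ (2 * Real.log A) ^ (B0 + 1) := pow_le_pow_left₀ L0.le (by linarith) _
        _ = 2 ^ (B0 + 1) * Real.log A ^ (B0 + 1) := mul_pow _ _ _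
        _ ≤ Real.log A * Real.log A ^ (B0 + 1) := by
            apply mul_le_mul_of_nonneg_right _ (by positivity)
            linarith
        _ = _ := by ring
    have h1 := hcnt A hAn z hz0 hzA (Q2 m m') (per_Q2 m m')
    have e : RR A z m m' = (((Icc 1 A).filter (fun n : ℕ => ∀ p ∈ pz z, ¬ Q2 m m' p n)).card : ℝ) := by
      unfold RR
      congr 2
      ext v
      rw [mem_filter, mem_filter]
      exact Iff.rfl
    rw [e]
    refine h1.trans (le_of_eq ?_)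
    ring
  have hM := moment (FN P) hF hG x z k A hz0 hA0 (Y := L ^ W) (M := x / L ^ (2 * W))
    (δ := 1 / Real.log A ^ W') (one_le_pow₀ L1) (by positivity) (by positivity)
    (fun q r hq hqY => hGs q r hq (hqY.trans (pow_le_pow_right₀ L1 (by omega)))) hR
  rw [← hK] at hM
  have hM2 : ∑ a ∈ Bx k A, ms (FN P) G z x a ^ 2 ≤ (A : ℝ) ^ k * (x ^ 2 / (8 * L ^ (3 * U))) := by
    refine hM.trans ?_
    apply mul_le_mul_of_nonneg_left _ (by positivity)
    have hxW : (x : ℝ) ≤ x ^ 2 / L ^ W := by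
      rw [le_div_iff₀ (by positivity), sq]
      apply mul_le_mul_of_nonneg_left _ hx0.le
      rw [one_mul] at f4
      refine f4.trans ?_
      rw [Real.sqrt_le_left (by positivity)]
      nlinarith
    have g1 : (L ^ W) ^ 2 * (x / L ^ (2 * W)) ^ 2 + (x : ℝ) ^ 2 / L ^ W + x ≤ 3 * (x ^ 2 / L ^ W) := by
      have e1 : (L ^ W) ^ 2 * (x / L ^ (2 * W)) ^ 2 = x ^ 2 / L ^ (2 * W) := by
        field_simp
        ring
      have e2 : (x : ℝ) ^ 2 / L ^ (2 * W) ≤ x ^ 2 / L ^ W := by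
        apply div_le_div_of_nonneg_left (by positivity) (by positivity)
        exact pow_le_pow_right₀ L1 (by omega)
      rw [e1]
      linarith
    have g2 : (3 * (z : ℝ)) ^ K ≤ L ^ ((B0 + 2) * K) := by
      rw [pow_mul]
      exact pow_le_pow_left₀ (by positivity) hz3 K
    have g3 : ((L ^ W) ^ 2 * (x / L ^ (2 * W)) ^ 2 + (x : ℝ) ^ 2 / L ^ W + x) * (3 * (z : ℝ)) ^ K ≤
        3 * (x ^ 2 / L ^ (3 * U + 1)) := by
      calc _ ≤ 3 * (x ^ 2 / L ^ W) * L ^ ((B0 + 2) * K) :=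
            mul_le_mul g1 g2 (by positivity) (by positivity)
        _ = _ := by
            rw [hW, pow_add]
            field_simp
    have g4 : (k : ℝ) * (z : ℝ) ^ (2 * (k + 1)) * (1 / Real.log A ^ W') ≤ 1 / L ^ (3 * U + 1) := by
      have h1 : (z : ℝ) ^ (2 * (k + 1)) ≤ L ^ ((B0 + 2) * (2 * (k + 1))) := by
        rw [pow_mul L]
        exact pow_le_pow_left₀ (by positivity) (by linarith [(by positivity : (0 : ℝ) ≤ z)]) _
      have h2 : 1 / Real.log A ^ W' ≤ 2 ^ W' / L ^ W' := by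
        rw [← div_pow, ← one_div_pow]
        apply pow_le_pow_left₀ (by positivity)
        rw [div_le_div_iff₀ hlA0 L0]
        linarith
      calc (k : ℝ) * (z : ℝ) ^ (2 * (k + 1)) * (1 / Real.log A ^ W')
          ≤ k * L ^ ((B0 + 2) * (2 * (k + 1))) * (2 ^ W' / L ^ W') :=
            mul_le_mul (mul_le_mul_of_nonneg_left h1 (Nat.cast_nonneg _)) h2 (by positivity) (by positivity)
        _ = (k * 2 ^ W') / L * (1 / L ^ (3 * U + 1)) := by
            have e : L ^ W' = L ^ ((B0 + 2) * (2 * (k + 1))) * (L ^ (3 * U + 1) * L) := by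
              rw [hW', pow_add]
              ring
            rw [e]
            field_simp
        _ ≤ 1 * (1 / L ^ (3 * U + 1)) := by
            apply mul_le_mul_of_nonneg_right _ (by positivity)
            rw [div_le_one L0]
            linarith
        _ = _ := one_mul _
    have g5 : (x : ℝ) ^ 2 * (k * (z : ℝ) ^ (2 * (k + 1)) * (1 / Real.log A ^ W')) ≤ x ^ 2 / L ^ (3 * U + 1) := by
      calc _ ≤ (x : ℝ) ^ 2 * (1 / L ^ (3 * U + 1)) := mul_le_mul_of_nonneg_left g4 (by positivity)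
        _ = _ := by ring
    have g6 : 4 * ((x : ℝ) ^ 2 / L ^ (3 * U + 1)) ≤ x ^ 2 / (8 * L ^ (3 * U)) := by
      rw [pow_succ L, ← mul_div_assoc, div_le_div_iff₀ (by positivity) (by positivity)]
      have h1 : 0 ≤ (x : ℝ) ^ 2 * L ^ (3 * U) := by positivity
      have h2 := mul_nonneg h1 (sub_nonneg.2 L32)
      have h3 : 4 * (x : ℝ) ^ 2 * (8 * L ^ (3 * U)) = 32 * ((x : ℝ) ^ 2 * L ^ (3 * U)) := by ring
      have h4 : (x : ℝ) ^ 2 * (L ^ (3 * U) * L) = L * ((x : ℝ) ^ 2 * L ^ (3 * U)) := by ring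
      rw [h3, h4]
      linarith
    linarith
  -- Markov
  set T := (Bx k A).filter (fun a => ¬ |ps P G x a| ≤ x / L ^ U) with hT
  set T1 := (Bx k A).filter (fun a => x / (2 * L ^ U) < |ps P G x a - ms (FN P) G z x a|) with hT1
  set T2 := (Bx k A).filter (fun a => x / (2 * L ^ U) < |ms (FN P) G z x a|) with hT2
  have hLU : 0 < L ^ U := by positivity
  have hsub : T ⊆ T1 ∪ T2 := by
    intro a ha
    rw [hT, mem_filter] at ha
    rw [mem_union, hT1, hT2, mem_filter, mem_filter]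
    by_contra hcon
    push Not at hcon
    have h1 := hcon.1 ha.1
    have h2 := hcon.2 ha.1
    apply ha.2
    have h3 : |ps P G x a| ≤ |ps P G x a - ms (FN P) G z x a| + |ms (FN P) G z x a| := by
      have := abs_add_le (ps P G x a - ms (FN P) G z x a) (ms (FN P) G z x a)
      rwa [sub_add_cancel] at this
    have h4 : (x : ℝ) / (2 * L ^ U) + x / (2 * L ^ U) = x / L ^ U := by field_simp; norm_num
    linarith
  have hc1 : (T1.card : ℝ) ≤ (A : ℝ) ^ k / (2 * L ^ U) := by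
    have h1 : (T1.card : ℝ) * (x / (2 * L ^ U)) ≤ x * (A : ℝ) ^ k / L ^ (2 * U + 1) := by
      refine le_trans ?_ hD2
      calc (T1.card : ℝ) * (x / (2 * L ^ U)) = ∑ a ∈ T1, x / (2 * L ^ U) := by
            rw [sum_const, nsmul_eq_mul]
        _ ≤ ∑ a ∈ T1, |ps P G x a - ms (FN P) G z x a| := by
            refine sum_le_sum fun a ha => ?_
            rw [hT1, mem_filter] at ha
            exact ha.2.le
        _ ≤ _ := sum_le_sum_of_subset_of_nonneg (filter_subset _ _) fun _ _ _ => abs_nonneg _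
    have h2 : x * (A : ℝ) ^ k / L ^ (2 * U + 1) ≤ (A : ℝ) ^ k / (2 * L ^ U) * (x / (2 * L ^ U)) := by
      have e : (A : ℝ) ^ k / (2 * L ^ U) * (x / (2 * L ^ U)) = x * (A : ℝ) ^ k / (4 * L ^ (2 * U)) := by
        rw [two_mul U, pow_add]
        field_simp
        ring
      rw [e]
      apply div_le_div_of_nonneg_left (by positivity) (by positivity)
      rw [pow_succ]
      have : 0 < L ^ (2 * U) := by positivity
      nlinarith
    exact le_of_mul_le_mul_right (h1.trans h2) (by positivity)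
  have hc2 : (T2.card : ℝ) ≤ (A : ℝ) ^ k / (2 * L ^ U) := by
    have h1 : (T2.card : ℝ) * (x / (2 * L ^ U)) ^ 2 ≤ (A : ℝ) ^ k * (x ^ 2 / (8 * L ^ (3 * U))) := by
      refine le_trans ?_ hM2
      calc (T2.card : ℝ) * (x / (2 * L ^ U)) ^ 2 = ∑ a ∈ T2, (x / (2 * L ^ U)) ^ 2 := by
            rw [sum_const, nsmul_eq_mul]
        _ ≤ ∑ a ∈ T2, ms (FN P) G z x a ^ 2 := by
            refine sum_le_sum fun a ha => ?_
            rw [hT2, mem_filter] at ha
            rw [← sq_abs (ms (FN P) G z x a)]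
            exact pow_le_pow_left₀ (by positivity) ha.2.le 2
        _ ≤ _ := sum_le_sum_of_subset_of_nonneg (filter_subset _ _) fun _ _ _ => sq_nonneg _
    have h2 : (A : ℝ) ^ k * (x ^ 2 / (8 * L ^ (3 * U))) = (A : ℝ) ^ k / (2 * L ^ U) * (x / (2 * L ^ U)) ^ 2 := by
      have e : L ^ (3 * U) = L ^ U * L ^ U * L ^ U := by ring
      rw [e]
      field_simp
      ring
    rw [h2] at h1
    exact le_of_mul_le_mul_right h1 (by positivity)
  have hcard : (T.card : ℝ) ≤ T1.card + T2.card := by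
    exact_mod_cast (card_le_card hsub).trans (card_union_le _ _)
  have h5 : (A : ℝ) ^ k / (2 * L ^ U) + (A : ℝ) ^ k / (2 * L ^ U) = (A : ℝ) ^ k / L ^ U := by
    field_simp
    norm_num
  linarith

end Pool.Agent.TH890.OA
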