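import Pool.Agent.TH890.OA.A4
import Pool.Agent.H373R2.T7.SupLiou

/-!
Orthogonality of sequences that are small in residue classes to prime values (helper890), part 5: the
Liouville function.
-/

set_option autoImplicit false

namespace Pool.Agent.TH890.OA

open Finset Polynomial Pool.Agent.H373R2.T7 Pool.Agent.H807R2.Dav

/-- sums over residue classes from exponential sums -/
lemma ap_of_sup {g : ℕ → ℝ} (hs : SupSmall (fun n => (g n : ℂ))) (U : ℕ) : ∃ N0 : ℕ, ∀ N : ℕ, N0 ≤ N →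
    ∀ q r : ℕ, 1 ≤ q → |∑ n ∈ (Icc 1 N).filter (fun n => n ≡ r [MOD q]), g n| ≤ N / Real.log N ^ U := by
  obtain ⟨N0, h⟩ := hs U
  refine ⟨N0, fun N hN q r hq => ?_⟩
  have hq0 : (0 : ℝ) < q := by exact_mod_cast hq
  have key : ((q : ℝ) : ℂ) * ((∑ n ∈ (Icc 1 N).filter (fun n => n ≡ r [MOD q]), g n : ℝ) : ℂ) =
      ∑ t ∈ range q, ee (-((t : ℝ) * ((r : ℝ) / q))) * ∑ n ∈ Icc 1 N, (g n : ℂ) * ee ((n : ℝ) * ((t : ℝ) / q)) := by
    have h1 : ∀ n ∈ Icc 1 N, (if n ≡ r [MOD q] then (q : ℂ) else 0) =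
        ∑ t ∈ range q, ee ((t : ℝ) * ((((n : ℤ) - (r : ℤ) : ℤ) : ℝ) / q)) := by
      intro n _
      rw [orth q hq ((n : ℤ) - r)]
      have e : (n ≡ r [MOD q]) ↔ (q : ℤ) ∣ (n : ℤ) - r := by
        rw [← Int.natCast_modEq_iff]
        constructor
        · intro h2
          exact h2.symm.dvd
        · intro h2
          exact (Int.modEq_iff_dvd.2 h2).symm
      simp only [e]
    calc ((q : ℝ) : ℂ) * ((∑ n ∈ (Icc 1 N).filter (fun n => n ≡ r [MOD q]), g n : ℝ) : ℂ)
        = ∑ n ∈ Icc 1 N, (g n : ℂ) * (if n ≡ r [MOD q] then (q : ℂ) else 0) := by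
          push_cast
          rw [mul_sum, sum_filter]
          refine sum_congr rfl fun n _ => ?_
          split_ifs
          · ring
          · simp
      _ = ∑ n ∈ Icc 1 N, (g n : ℂ) * ∑ t ∈ range q, ee ((t : ℝ) * ((((n : ℤ) - (r : ℤ) : ℤ) : ℝ) / q)) := by
          refine sum_congr rfl fun n hn => ?_
          rw [h1 n hn]
      _ = ∑ n ∈ Icc 1 N, ∑ t ∈ range q, ee (-((t : ℝ) * ((r : ℝ) / q))) * ((g n : ℂ) * ee ((n : ℝ) * ((t : ℝ) / q))) := by
          refine sum_congr rfl fun n _ => ?_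
          rw [mul_sum]
          refine sum_congr rfl fun t _ => ?_
          have e : (t : ℝ) * ((((n : ℤ) - (r : ℤ) : ℤ) : ℝ) / q) =
              -((t : ℝ) * ((r : ℝ) / q)) + (n : ℝ) * ((t : ℝ) / q) := by
            push_cast
            field_simp
            ring
          rw [e, ee_add]
          ring
      _ = _ := by
          rw [sum_comm]
          refine sum_congr rfl fun t _ => ?_
          rw [mul_sum]
  have h2 : ‖((q : ℝ) : ℂ) * ((∑ n ∈ (Icc 1 N).filter (fun n => n ≡ r [MOD q]), g n : ℝ) : ℂ)‖ ≤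
      q * (N / Real.log N ^ U) := by
    rw [key]
    refine (norm_sum_le _ _).trans ?_
    calc ∑ t ∈ range q, ‖ee (-((t : ℝ) * ((r : ℝ) / q))) * ∑ n ∈ Icc 1 N, (g n : ℂ) * ee ((n : ℝ) * ((t : ℝ) / q))‖
        ≤ ∑ t ∈ range q, (N : ℝ) / Real.log N ^ U := by
          refine sum_le_sum fun t _ => ?_
          rw [norm_mul, norm_ee, one_mul]
          exact h N hN _
      _ = _ := by rw [sum_const, card_range, nsmul_eq_mul]
  rw [norm_mul, Complex.norm_real, Complex.norm_real, Real.norm_eq_abs, Real.norm_eq_abs, abs_of_pos hq0] at h2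
  exact le_of_mul_le_mul_left h2 hq0

/-- the Liouville function -/
noncomputable def lio (n : ℕ) : ℝ := (-1) ^ ArithmeticFunction.cardFactors n

lemma abs_lio (n : ℕ) : |lio n| ≤ 1 := by
  unfold lio
  rw [abs_pow, abs_neg, abs_one, one_pow]

lemma lio_ap (U : ℕ) : ∃ N0 : ℕ, ∀ N : ℕ, N0 ≤ N → ∀ q r : ℕ, 1 ≤ q →
    |∑ n ∈ (Icc 1 N).filter (fun n => n ≡ r [MOD q]), lio n| ≤ N / Real.log N ^ U := by
  refine ap_of_sup ?_ U
  have e : (fun n => (lio n : ℂ)) = liR := by
    funext n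
    unfold lio liR
    push_cast
    rfl
  rw [e]
  exact sup_liou

end Pool.Agent.TH890.OA
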