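import Pool.Agent.TH890.OA.A5

/-!
Orthogonality of sequences that are small in residue classes to prime values (helper890), part 6:
polynomials with negative values.
-/

set_option autoImplicit false

namespace Pool.Agent.TH890.OA

open Finset Polynomial Pool.Agent.H373R2.T7

/-- polynomials with positive leading coefficient are bounded below on the natural numbers -/
lemma bdd_below {P : ℤ[X]} (hd : 1 ≤ P.natDegree) (hl : 0 < P.leadingCoeff) :
    ∃ c : ℕ, ∀ n : ℕ, 0 ≤ P.eval (n : ℤ) + c := by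
  have hdeg : 0 < (P.map (Int.castRingHom ℝ)).degree := by
    rw [degree_map_eq_of_injective (RingHom.injective_int _)]
    exact natDegree_pos_iff_degree_pos.1 hd
  have hlc : 0 ≤ (P.map (Int.castRingHom ℝ)).leadingCoeff := by
    rw [leadingCoeff_map_of_injective (RingHom.injective_int _)]
    simp only [eq_intCast]
    exact_mod_cast hl.le
  have ht := ((P.map (Int.castRingHom ℝ)).tendsto_atTop_of_leadingCoeff_nonneg hdeg hlc).comp
    (tendsto_natCast_atTop_atTop (R := ℝ))
  obtain ⟨n0, h0⟩ := Filter.eventually_atTop.1 (ht.eventually_ge_atTop 0)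
  refine ⟨∑ n ∈ range n0, (P.eval (n : ℤ)).natAbs, fun n => ?_⟩
  rcases lt_or_ge n n0 with h | h
  · have h1 : (P.eval (n : ℤ)).natAbs ≤ ∑ n ∈ range n0, (P.eval (n : ℤ)).natAbs :=
      single_le_sum (f := fun n : ℕ => (P.eval (n : ℤ)).natAbs) (fun _ _ => Nat.zero_le _) (mem_range.2 h)
    omega
  · have h1 := h0 n h
    simp only [Function.comp_apply] at h1
    have h2 : (P.map (Int.castRingHom ℝ)).eval ((n : ℕ) : ℝ) = ((P.eval (n : ℤ) : ℤ) : ℝ) := by
      have := eval_map_apply (f := Int.castRingHom ℝ) (p := P) (x := (n : ℤ))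
      simpa using this
    rw [h2] at h1
    have h3 : 0 ≤ P.eval (n : ℤ) := by exact_mod_cast h1
    positivity

lemma ps_shift {k : ℕ} (P : ℤ[X]) (c : ℕ) (G : ℕ → ℝ) (x : ℕ) (a : Fin k → ℕ) (ha : ∀ i, c ≤ a i) :
    ps (P + C (c : ℤ)) G x (fun i => a i - c) = ps P G x a := by
  unfold ps
  refine sum_congr rfl fun n _ => ?_
  congr 1
  refine prod_congr rfl fun i _ => ?_
  congr 1
  unfold vl
  rw [eval_add, eval_C, Nat.cast_sub (ha i)]
  ring

/-- vectors with a small coordinate -/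
lemma card_small (k A c : ℕ) (hA : 1 ≤ A) :
    (((Bx k A).filter (fun a => ∃ i, a i ≤ c)).card : ℝ) ≤ k * ((c : ℝ) / A * (A : ℝ) ^ k) := by
  have hA0 : (0 : ℝ) < A := by exact_mod_cast hA
  have h1 : ∀ i : Fin k, ∑ a ∈ Bx k A, (if a i ≤ c then (1 : ℝ) else 0) ≤ (c : ℝ) / A * (A : ℝ) ^ k := by
    intro i
    have h2 := sum_coord (fun _ : Fin k => A) (fun _ => hA) i (fun v => if v ≤ c then (1 : ℝ) else 0)
      ((c : ℝ) / A) (by
        rw [← sum_filter, sum_const, nsmul_eq_mul, mul_one, div_mul_cancel₀ _ hA0.ne']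
        have h3 : (Icc 1 A).filter (fun v => v ≤ c) ⊆ Icc 1 c := by
          intro v hv
          rw [mem_filter, mem_Icc] at hv
          exact mem_Icc.2 ⟨hv.1.1, hv.2⟩
        have h4 := card_le_card h3
        rw [Nat.card_Icc, Nat.add_sub_cancel] at h4
        exact_mod_cast h4)
    rw [prod_const, card_univ, Fintype.card_fin] at h2
    exact h2
  calc (((Bx k A).filter (fun a => ∃ i, a i ≤ c)).card : ℝ)
      = ∑ a ∈ Bx k A, (if ∃ i, a i ≤ c then (1 : ℝ) else 0) := by
        rw [← sum_filter, sum_const, nsmul_eq_mul, mul_one]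
    _ ≤ ∑ a ∈ Bx k A, ∑ i, (if a i ≤ c then (1 : ℝ) else 0) := by
        refine sum_le_sum fun a _ => ?_
        split_ifs with h
        · obtain ⟨i, hi⟩ := h
          have := single_le_sum (f := fun i => if a i ≤ c then (1 : ℝ) else 0) (s := univ)
            (fun j _ => by split_ifs <;> norm_num) (mem_univ i)
          simpa [hi] using this
        · exact sum_nonneg fun j _ => by split_ifs <;> norm_num
    _ = ∑ i, ∑ a ∈ Bx k A, (if a i ≤ c then (1 : ℝ) else 0) := sum_comm
    _ ≤ ∑ i : Fin k, (c : ℝ) / A * (A : ℝ) ^ k := sum_le_sum fun i _ => h1 i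
    _ = _ := by rw [sum_const, card_univ, Fintype.card_fin, nsmul_eq_mul]

theorem ortho_all {P : ℤ[X]} (hd : 1 ≤ P.natDegree) (hl : 0 < P.leadingCoeff)
    (k B U : ℕ) (hB : 1 ≤ B) : ∃ V x₀ : ℕ, ∀ x : ℕ, x₀ ≤ x → ∀ A : ℕ, A ≤ B * x ^ P.natDegree →
    x ^ P.natDegree ≤ B * A → ∀ G : ℕ → ℝ, (∀ n, |G n| ≤ 1) →
    (∀ q r : ℕ, 1 ≤ q → (q : ℝ) ≤ Real.log x ^ V →
      |∑ n ∈ (Icc 1 x).filter (fun n => n ≡ r [MOD q]), G n| ≤ x / Real.log x ^ V) →
    (((Bx k A).filter (fun a => ¬ |ps P G x a| ≤ x / Real.log x ^ U)).card : ℝ) ≤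
      (A : ℝ) ^ k / Real.log x ^ U := by
  classical
  obtain ⟨c, hc⟩ := bdd_below hd hl
  have hdeg : (P + C (c : ℤ)).natDegree = P.natDegree := natDegree_add_C
  have hlc : 0 < (P + C (c : ℤ)).leadingCoeff := by
    unfold leadingCoeff
    rw [hdeg, coeff_add, coeff_C, if_neg (by omega), add_zero]
    exact hl
  obtain ⟨V, n1, h1⟩ := ortho (P := P + C (c : ℤ)) (by rw [hdeg]; exact hd) hlc
    (fun n => by rw [eval_add, eval_C]; exact hc n) k B (U + 1) hB
  rw [hdeg] at h1
  obtain ⟨n2, h2⟩ := ev_log' U (2 * k * c * B)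
  obtain ⟨n3, h3⟩ := ev_L' 2
  refine ⟨V, max (max n1 n2) (max n3 3), fun x hx A hA1 hA2 G hG hGs => ?_⟩
  have a1 : n1 ≤ x := (le_max_left _ _).trans ((le_max_left _ _).trans hx)
  have a2 : n2 ≤ x := (le_max_right _ _).trans ((le_max_left _ _).trans hx)
  have a3 : n3 ≤ x := (le_max_left _ _).trans ((le_max_right _ _).trans hx)
  have a4 : 3 ≤ x := (le_max_right _ _).trans ((le_max_right _ _).trans hx)
  have f1 := h1 x a1 A hA1 hA2 G hG hGs
  have f2 := h2 x a2
  have f3 := h3 x a3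
  have hx3 : (3 : ℝ) ≤ x := by exact_mod_cast a4
  have hx0 : (0 : ℝ) < x := by linarith
  set L := Real.log x with hL
  have L0 : 0 < L := by linarith
  have hLU : 0 < L ^ U := by positivity
  have hxA : x ≤ B * A := by
    refine le_trans ?_ hA2
    exact Nat.le_self_pow (by omega) x
  have hA0 : 1 ≤ A := by
    rcases Nat.eq_zero_or_pos A with h | h
    · rw [h, mul_zero] at hxA; omega
    · exact h
  have hAr : (1 : ℝ) ≤ A := by exact_mod_cast hA0
  have hBr : (1 : ℝ) ≤ B := by exact_mod_cast hB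
  have hxAr : (x : ℝ) ≤ B * A := by exact_mod_cast hxA
  have hsx : √(x : ℝ) ≤ x := by
    rw [Real.sqrt_le_left hx0.le]
    nlinarith
  have f4 : 2 * k * c * L ^ U ≤ A := by
    have h5 : B * (2 * k * c * L ^ U) ≤ B * A := by
      calc (B : ℝ) * (2 * k * c * L ^ U) = 2 * k * c * B * L ^ U := by ring
        _ ≤ _ := (f2.trans hsx).trans hxAr
    exact le_of_mul_le_mul_left h5 (by linarith)
  set S1 := (Bx k A).filter (fun a => ∃ i, a i ≤ c) with hS1
  set S2 := (Bx k A).filter (fun a => ¬ |ps (P + C (c : ℤ)) G x a| ≤ x / L ^ (U + 1)) with hS2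
  set S3 := ((Bx k A).filter (fun a => ¬ |ps P G x a| ≤ x / L ^ U)).filter (fun a => ∀ i, c < a i) with hS3
  have e1 : S3.card ≤ S2.card := by
    apply card_le_card_of_injOn (fun a i => a i - c)
    · intro a ha
      rw [mem_coe, hS3, mem_filter, mem_filter] at ha
      rw [mem_coe, hS2, mem_filter]
      obtain ⟨⟨h5, h6⟩, h7⟩ := ha
      constructor
      · unfold Bx at h5 ⊢
        rw [Fintype.mem_piFinset] at h5 ⊢
        intro i
        have h8 := mem_Icc.1 (h5 i)
        have h9 := h7 i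
        show a i - c ∈ Icc 1 A
        exact mem_Icc.2 ⟨by omega, by omega⟩
      · rw [ps_shift P c G x a (fun i => (h7 i).le)]
        intro h8
        apply h6
        refine h8.trans ?_
        apply div_le_div_of_nonneg_left hx0.le hLU
        rw [pow_succ]
        nlinarith
    · intro a ha b hb hab
      rw [mem_coe, hS3, mem_filter] at ha hb
      funext i
      have h5 := congrFun hab i
      have h6 := ha.2 i
      have h7 := hb.2 i
      simp only at h5
      omega
  have e2 : (Bx k A).filter (fun a => ¬ |ps P G x a| ≤ x / L ^ U) ⊆ S1 ∪ S3 := by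
    intro a ha
    rw [mem_union]
    by_cases h5 : ∃ i, a i ≤ c
    · left
      rw [hS1, mem_filter]
      exact ⟨(mem_filter.1 ha).1, h5⟩
    · right
      push Not at h5
      rw [hS3, mem_filter]
      exact ⟨ha, h5⟩
  have e3 : (((Bx k A).filter (fun a => ¬ |ps P G x a| ≤ x / L ^ U)).card : ℝ) ≤ S1.card + S2.card := by
    have h5 := (card_le_card e2).trans (card_union_le _ _)
    have h6 : ((Bx k A).filter (fun a => ¬ |ps P G x a| ≤ x / L ^ U)).card ≤ S1.card + S2.card :=
      h5.trans (Nat.add_le_add_left e1 _)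
    exact_mod_cast h6
  have e4 := card_small k A c hA0
  rw [← hS1] at e4
  have e5 : (k : ℝ) * ((c : ℝ) / A * (A : ℝ) ^ k) ≤ (A : ℝ) ^ k / L ^ U / 2 := by
    have h5 : (k : ℝ) * ((c : ℝ) / A) ≤ 1 / L ^ U / 2 := by
      rw [← mul_div_assoc, div_div, div_le_div_iff₀ (by linarith) (by positivity)]
      linarith
    calc (k : ℝ) * ((c : ℝ) / A * (A : ℝ) ^ k) = (k : ℝ) * ((c : ℝ) / A) * (A : ℝ) ^ k := by ring
      _ ≤ 1 / L ^ U / 2 * (A : ℝ) ^ k := mul_le_mul_of_nonneg_right h5 (by positivity)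
      _ = _ := by ring
  have e6 : (A : ℝ) ^ k / L ^ (U + 1) ≤ (A : ℝ) ^ k / L ^ U / 2 := by
    rw [div_div]
    apply div_le_div_of_nonneg_left (by positivity) (by positivity)
    rw [pow_succ]
    nlinarith
  linarith

end Pool.Agent.TH890.OA
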